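import Pool.Agent.Helper98.Sim.Defs

/-! A3: polynomial partitioning from the discrete ham sandwich theorem. -/

set_option autoImplicit false

open scoped Classical BigOperators
open Finset

namespace Pool.Agent.Helper98.Sim

namespace A3

/-- exponent vectors -/
noncomputable def expo {d m : ℕ} (a : Fin d → Fin m) : Fin d →₀ ℕ :=
  Finsupp.equivFunOnFinite.symm (fun k => (a k : ℕ))

theorem expo_inj {d m : ℕ} : Function.Injective (expo (d := d) (m := m)) := by
  intro a b h
  have h2 := Finsupp.equivFunOnFinite.symm.injective h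
  funext k
  exact Fin.ext (congrFun h2 k)

theorem step (hH : Ham_stmt) (d : ℕ) (hd : 0 < d) (P : Finset (Fin d → ℝ)) (j : ℕ)
    (f : Fin j → MvPolynomial (Fin d) ℝ)
    (hσ : ∀ σ : Fin j → Bool,
      2 ^ j * (P.filter (fun x => (∀ j, MvPolynomial.eval x (f j) ≠ 0) ∧ sgnp f x = σ)).card
        ≤ P.card) :
    ∃ g : MvPolynomial (Fin d) ℝ, g ≠ 0 ∧ g.totalDegree ≤ d * 2 ^ (j / d + 1) ∧
      ∀ σ : Fin (j + 1) → Bool,
      2 ^ (j + 1) * (P.filter (fun x =>
        (∀ j', MvPolynomial.eval x ((Fin.snoc f g : Fin (j + 1) → MvPolynomial (Fin d) ℝ) j') ≠ 0) ∧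
        sgnp (Fin.snoc f g : Fin (j + 1) → MvPolynomial (Fin d) ℝ) x = σ)).card ≤ P.card := by
  set m := 2 ^ (j / d + 1) with hm
  have hcard : Fintype.card (Fin (2 ^ j + 1)) ≤ Fintype.card (Fin d → Fin m) := by
    rw [Fintype.card_fin, Fintype.card_fun, Fintype.card_fin, Fintype.card_fin, hm, ← pow_mul]
    have h1 : j + 1 ≤ (j / d + 1) * d := by
      have := Nat.lt_div_mul_add (a := j) hd
      have h2 : (j / d + 1) * d = j / d * d + d := by ring
      omega
    calc 2 ^ j + 1 ≤ 2 ^ j + 2 ^ j := by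
          have : 1 ≤ 2 ^ j := Nat.one_le_two_pow
          omega
      _ = 2 ^ (j + 1) := by ring
      _ ≤ 2 ^ ((j / d + 1) * d) := Nat.pow_le_pow_right (by norm_num) h1
  obtain ⟨emb⟩ := Function.Embedding.nonempty_of_card_le hcard
  let e : Fin (2 ^ j) ≃ (Fin j → Bool) := (Fintype.equivFinOfCardEq (by simp)).symm
  let φ : Fin (2 ^ j + 1) → (Fin d → ℝ) → ℝ := fun i x => ∏ k, x k ^ ((emb i k : ℕ))
  let A : Fin (2 ^ j) → Finset (Fin d → ℝ) := fun l =>
    P.filter (fun x => (∀ j, MvPolynomial.eval x (f j) ≠ 0) ∧ sgnp f x = e l)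
  obtain ⟨c, hc, hA⟩ := hH (Fin d → ℝ) (2 ^ j) φ A
  let g : MvPolynomial (Fin d) ℝ := ∑ i, MvPolynomial.monomial (expo (emb i)) (c i)
  have heval : ∀ x, MvPolynomial.eval x g = ∑ i, c i * φ i x := by
    intro x
    simp only [g, map_sum]
    refine Finset.sum_congr rfl fun i _ => ?_
    rw [MvPolynomial.eval_monomial]
    simp only [φ]
    congr 1
    rw [Finsupp.prod_fintype _ _ (fun k => by simp)]
    rfl
  have hg : g ≠ 0 := by
    intro h0
    apply hc
    funext i
    have h1 : MvPolynomial.coeff (expo (emb i)) g = c i := by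
      simp only [g, MvPolynomial.coeff_sum, MvPolynomial.coeff_monomial]
      rw [Finset.sum_eq_single i]
      · simp
      · intro b _ hb
        rw [if_neg]
        intro h2
        exact hb (emb.injective (expo_inj h2))
      · intro h2; exact absurd (Finset.mem_univ _) h2
    rw [← h1, h0]; simp
  refine ⟨g, hg, ?_, ?_⟩
  · refine MvPolynomial.totalDegree_finsetSum_le (fun i _ => ?_)
    refine (MvPolynomial.totalDegree_monomial_le _ _).trans ?_
    have : ((expo (emb i)).sum fun _ => id) = ∑ k, (emb i k : ℕ) := by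
      rw [Finsupp.sum_fintype _ _ (fun _ => rfl)]; rfl
    rw [this]
    calc ∑ k, (emb i k : ℕ) ≤ ∑ _k : Fin d, m := Finset.sum_le_sum fun k _ => (emb i k).isLt.le
      _ = d * m := by simp
  · intro σ
    set σ' : Fin j → Bool := fun k => σ k.castSucc with hσ'
    have key : 2 * (P.filter (fun x =>
        (∀ j', MvPolynomial.eval x ((Fin.snoc f g : Fin (j + 1) → MvPolynomial (Fin d) ℝ) j') ≠ 0) ∧
        sgnp (Fin.snoc f g : Fin (j + 1) → MvPolynomial (Fin d) ℝ) x = σ)).card ≤
        (A (e.symm σ')).card := by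
      have hsub : ∀ x, (∀ j', MvPolynomial.eval x
          ((Fin.snoc f g : Fin (j + 1) → MvPolynomial (Fin d) ℝ) j') ≠ 0) ∧
          sgnp (Fin.snoc f g : Fin (j + 1) → MvPolynomial (Fin d) ℝ) x = σ →
          ((∀ j, MvPolynomial.eval x (f j) ≠ 0) ∧ sgnp f x = σ') ∧
          MvPolynomial.eval x g ≠ 0 ∧ decide (0 < MvPolynomial.eval x g) = σ (Fin.last j) := by
        rintro x ⟨h1, h2⟩
        refine ⟨⟨fun k => ?_, ?_⟩, ?_, ?_⟩
        · have := h1 k.castSucc
          rwa [Fin.snoc_castSucc] at this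
        · funext k
          have := congrFun h2 k.castSucc
          unfold sgnp at this ⊢
          rw [Fin.snoc_castSucc] at this
          exact this
        · have := h1 (Fin.last j)
          rwa [Fin.snoc_last] at this
        · have := congrFun h2 (Fin.last j)
          unfold sgnp at this
          rw [Fin.snoc_last] at this
          exact this
      cases hb : σ (Fin.last j) with
      | true =>
        refine le_trans (Nat.mul_le_mul_left 2 (Finset.card_le_card ?_)) (hA (e.symm σ')).1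
        intro x hx
        rw [Finset.mem_filter] at hx
        have h := hsub x hx.2
        rw [hb, decide_eq_true_eq] at h
        rw [Finset.mem_filter]
        refine ⟨?_, by rw [← heval]; exact h.2.2⟩
        simp only [A]
        rw [Finset.mem_filter, Equiv.apply_symm_apply]
        exact ⟨hx.1, h.1⟩
      | false =>
        refine le_trans (Nat.mul_le_mul_left 2 (Finset.card_le_card ?_)) (hA (e.symm σ')).2
        intro x hx
        rw [Finset.mem_filter] at hx
        have h := hsub x hx.2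
        rw [hb, decide_eq_false_iff_not] at h
        rw [Finset.mem_filter]
        refine ⟨?_, by rw [← heval]; exact lt_of_le_of_ne (not_lt.1 h.2.2) h.2.1⟩
        simp only [A]
        rw [Finset.mem_filter, Equiv.apply_symm_apply]
        exact ⟨hx.1, h.1⟩
    have h2 := hσ σ'
    have h3 : A (e.symm σ') =
        P.filter (fun x => (∀ j, MvPolynomial.eval x (f j) ≠ 0) ∧ sgnp f x = σ') := by
      simp only [A]
      rw [Equiv.apply_symm_apply]
    rw [← h3] at h2
    calc 2 ^ (j + 1) * _ = 2 ^ j * (2 * _) := by ring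
      _ ≤ 2 ^ j * _ := Nat.mul_le_mul_left _ key
      _ ≤ P.card := h2

theorem steps (hH : Ham_stmt) (d : ℕ) (hd : 0 < d) (P : Finset (Fin d → ℝ)) (j : ℕ) :
    ∃ f : Fin j → MvPolynomial (Fin d) ℝ, (∀ j', f j' ≠ 0) ∧
      (∀ j', (f j').totalDegree ≤ d * 2 ^ ((j' : ℕ) / d + 1)) ∧
      ∀ σ : Fin j → Bool,
      2 ^ j * (P.filter (fun x => (∀ j, MvPolynomial.eval x (f j) ≠ 0) ∧ sgnp f x = σ)).card
        ≤ P.card := by
  induction j with
  | zero =>
    refine ⟨fun k => k.elim0, fun k => k.elim0, fun k => k.elim0, fun σ => ?_⟩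
    rw [pow_zero, one_mul]
    exact Finset.card_filter_le _ _
  | succ j ih =>
    obtain ⟨f, h1, h2, h3⟩ := ih
    obtain ⟨g, g1, g2, g3⟩ := step hH d hd P j f h3
    refine ⟨Fin.snoc f g, ?_, ?_, g3⟩
    · intro k
      refine Fin.lastCases ?_ (fun k => ?_) k
      · rw [Fin.snoc_last]; exact g1
      · rw [Fin.snoc_castSucc]; exact h1 k
    · intro k
      refine Fin.lastCases ?_ (fun k => ?_) k
      · rw [Fin.snoc_last, Fin.val_last]; exact g2
      · rw [Fin.snoc_castSucc, Fin.val_castSucc]; exact h2 k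

theorem sum_bound (d : ℕ) (hd : 0 < d) (i : ℕ) :
    ∑ j ∈ Finset.range (d * i), d * 2 ^ (j / d + 1) ≤ 2 * d ^ 2 * 2 ^ i := by
  induction i with
  | zero => simp
  | succ i ih =>
    rw [Nat.mul_succ, Finset.sum_range_add]
    have h1 : ∑ x ∈ Finset.range d, d * 2 ^ ((d * i + x) / d + 1) =
        ∑ _x ∈ Finset.range d, d * 2 ^ (i + 1) := by
      refine Finset.sum_congr rfl fun x hx => ?_
      rw [Finset.mem_range] at hx
      rw [Nat.mul_add_div hd, Nat.div_eq_of_lt hx, add_zero]
    rw [h1, Finset.sum_const, Finset.card_range, smul_eq_mul]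
    have h2 : d * (d * 2 ^ (i + 1)) = 2 * d ^ 2 * 2 ^ i := by ring
    have h3 : 2 * d ^ 2 * 2 ^ (i + 1) = 2 * d ^ 2 * 2 ^ i + 2 * d ^ 2 * 2 ^ i := by ring
    rw [h2, h3]
    omega

end A3

theorem st_A3 (hH : Ham_stmt) : ∀ d, Part_stmt d := by
  intro d i P
  rcases Nat.eq_zero_or_pos d with rfl | hd
  · have h0 : IsEmpty (Fin (0 * i)) := by rw [Nat.zero_mul]; infer_instance
    refine ⟨fun k => h0.elim k, fun k => h0.elim k, ?_, fun σ => ?_⟩
    · rw [Finset.univ_eq_empty, Finset.sum_empty]; exact Nat.zero_le _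
    · have h1 : 2 ^ (0 * i) = 1 := by rw [Nat.zero_mul, pow_zero]
      refine le_trans (Nat.mul_le_mul_right _ h1.le) ?_
      rw [one_mul]
      exact Finset.card_filter_le _ _
  · obtain ⟨f, h1, h2, h3⟩ := A3.steps hH d hd P (d * i)
    refine ⟨f, h1, ?_, h3⟩
    calc ∑ j, (f j).totalDegree ≤ ∑ j : Fin (d * i), d * 2 ^ ((j : ℕ) / d + 1) :=
          Finset.sum_le_sum fun j _ => h2 j
      _ = ∑ j ∈ Finset.range (d * i), d * 2 ^ (j / d + 1) :=
          Fin.sum_univ_eq_sum_range (fun j => d * 2 ^ (j / d + 1)) (d * i)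
      _ ≤ 2 * d ^ 2 * 2 ^ i := A3.sum_bound d hd i

end Pool.Agent.Helper98.Sim
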