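import Pool.Agent.Helper98.Sim.Defs

/-! B2: the Szemeredi-Trotter theorem in the plane by polynomial partitioning. -/

set_option autoImplicit false

open scoped Classical BigOperators
open Finset

namespace Pool.Agent.Helper98.Sim

namespace B2

theorem k22 {α β : Type} (X : Finset α) (Y : Finset β) (R : α → β → Prop)
    (h : ∀ x ∈ X, ∀ x' ∈ X, x ≠ x' → ∀ y ∈ Y, ∀ y' ∈ Y,
      R x y → R x' y → R x y' → R x' y' → y = y') :
    ((X ×ˢ Y).filter (fun z => R z.1 z.2)).card ≤ Y.card + X.card ^ 2 := by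
  have h1 : ((X ×ˢ Y).filter (fun z => R z.1 z.2)).card =
      ∑ y ∈ Y, (X.filter (fun x => R x y)).card := by
    rw [Finset.card_filter, Finset.sum_product_right]
    refine Finset.sum_congr rfl fun y _ => ?_
    rw [Finset.card_filter]
  have h2 : ∀ y ∈ Y, (X.filter (fun x => R x y)).card ≤
      1 + ((X.offDiag).filter (fun z => R z.1 y ∧ R z.2 y)).card := by
    intro y _
    have h3 : (X.filter (fun x => R x y)).offDiag ⊆
        (X.offDiag).filter (fun z => R z.1 y ∧ R z.2 y) := by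
      intro z hz
      rw [Finset.mem_offDiag, Finset.mem_filter, Finset.mem_filter] at hz
      rw [Finset.mem_filter, Finset.mem_offDiag]
      exact ⟨⟨hz.1.1, hz.2.1.1, hz.2.2⟩, hz.1.2, hz.2.1.2⟩
    have h4 := Finset.card_le_card h3
    rw [Finset.offDiag_card] at h4
    set k := (X.filter (fun x => R x y)).card
    have h5 : k ≤ 1 + (k * k - k) := by
      rcases Nat.lt_or_ge k 2 with hk | hk
      · omega
      · have : k * 2 ≤ k * k := Nat.mul_le_mul_left k hk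
        omega
    omega
  have h3 : ∑ y ∈ Y, ((X.offDiag).filter (fun z => R z.1 y ∧ R z.2 y)).card ≤ X.card ^ 2 := by
    have h4 : ∑ y ∈ Y, ((X.offDiag).filter (fun z => R z.1 y ∧ R z.2 y)).card =
        ∑ z ∈ X.offDiag, (Y.filter (fun y => R z.1 y ∧ R z.2 y)).card := by
      simp_rw [Finset.card_filter]
      rw [Finset.sum_comm]
    rw [h4]
    calc ∑ z ∈ X.offDiag, (Y.filter (fun y => R z.1 y ∧ R z.2 y)).card ≤ ∑ _z ∈ X.offDiag, 1 := by
          refine Finset.sum_le_sum fun z hz => ?_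
          rw [Finset.mem_offDiag] at hz
          rw [Finset.card_le_one]
          intro y hy y' hy'
          rw [Finset.mem_filter] at hy hy'
          exact h z.1 hz.1 z.2 hz.2.1 hz.2.2 y hy.1 y' hy'.1 hy.2.1 hy.2.2 hy'.2.1 hy'.2.2
      _ = X.offDiag.card := by simp
      _ ≤ X.card ^ 2 := by
          rw [Finset.offDiag_card, sq]
          exact Nat.sub_le _ _
  calc ((X ×ˢ Y).filter (fun z => R z.1 z.2)).card =
      ∑ y ∈ Y, (X.filter (fun x => R x y)).card := h1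
    _ ≤ ∑ y ∈ Y, (1 + ((X.offDiag).filter (fun z => R z.1 y ∧ R z.2 y)).card) :=
        Finset.sum_le_sum h2
    _ = Y.card + ∑ y ∈ Y, ((X.offDiag).filter (fun z => R z.1 y ∧ R z.2 y)).card := by
        rw [Finset.sum_add_distrib]; simp
    _ ≤ Y.card + X.card ^ 2 := by omega

theorem k22' {α β : Type} (X : Finset α) (Y : Finset β) (R : α → β → Prop)
    (h : ∀ x ∈ X, ∀ x' ∈ X, x ≠ x' → ∀ y ∈ Y, ∀ y' ∈ Y,
      R x y → R x' y → R x y' → R x' y' → y = y') :
    ((X ×ˢ Y).filter (fun z => R z.1 z.2)).card ≤ X.card + Y.card ^ 2 := by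
  have h1 := k22 Y X (fun y x => R x y) (by
    intro y hy y' hy' hne x hx x' hx' a b c d
    by_contra hxx
    exact hne (h x hx x' hx' hxx y hy y' hy' a c b d))
  refine le_trans (le_of_eq ?_) h1
  refine Finset.card_bij (fun z _ => (z.2, z.1)) ?_ ?_ ?_
  · intro z hz
    rw [Finset.mem_filter, Finset.mem_product] at hz ⊢
    exact ⟨⟨hz.1.2, hz.1.1⟩, hz.2⟩
  · intro z _ z' _ hzz
    rw [Prod.mk.injEq] at hzz
    exact Prod.ext hzz.2 hzz.1
  · intro z hz
    rw [Finset.mem_filter, Finset.mem_product] at hz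
    refine ⟨(z.2, z.1), ?_, rfl⟩
    rw [Finset.mem_filter, Finset.mem_product]
    exact ⟨⟨hz.1.2, hz.1.1⟩, hz.2⟩

/-- the normal vector of a line in the plane -/
def perp (v : Fin 2 → ℝ) : Fin 2 → ℝ := ![-v 1, v 0]

theorem perp_ne {v : Fin 2 → ℝ} (hv : v ≠ 0) : perp v ≠ 0 := by
  intro h
  apply hv
  have h0 := congrFun h 0
  have h1 := congrFun h 1
  simp [perp] at h0 h1
  funext k
  fin_cases k
  · exact h1
  · exact h0

theorem on_iff {b v x : Fin 2 → ℝ} (hv : v ≠ 0) : On b v x ↔ perp v ⬝ᵥ x = perp v ⬝ᵥ b := by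
  constructor
  · rintro ⟨t, rfl⟩
    simp [perp, dotProduct, Fin.sum_univ_two]
    ring
  · intro h
    simp only [perp, dotProduct, Fin.sum_univ_two, Matrix.cons_val_zero, Matrix.cons_val_one] at h
    by_cases h0 : v 0 = 0
    · have h1 : v 1 ≠ 0 := by
        intro h1
        apply hv
        funext k
        fin_cases k
        · exact h0
        · exact h1
      refine ⟨(x 1 - b 1) / v 1, ?_⟩
      rw [h0] at h
      have hx : x 0 = b 0 := by
        have : v 1 * (x 0 - b 0) = 0 := by linarith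
        rcases mul_eq_zero.1 this with h2 | h2
        · exact absurd h2 h1
        · linarith
      funext k
      fin_cases k
      · simp [h0, hx]
      · simp; field_simp; ring
    · refine ⟨(x 0 - b 0) / v 0, ?_⟩
      funext k
      fin_cases k
      · simp; field_simp; ring
      · simp only [Fin.mk_one, Pi.add_apply, Pi.smul_apply, smul_eq_mul]
        field_simp
        linarith

/-- number of incidences -/
theorem bound (hPt : Part_stmt 2) (hCr : CrossLine_stmt 2) (hHy : HypCount_stmt 2)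
    (ι : Type) (P : Finset (Fin 2 → ℝ)) (Λ : Finset ι) (b v : ι → Fin 2 → ℝ)
    (hv : ∀ i ∈ Λ, v i ≠ 0)
    (hd : ∀ i ∈ Λ, ∀ j ∈ Λ, i ≠ j → ∀ x y, On (b i) (v i) x → On (b j) (v j) x →
      On (b i) (v i) y → On (b j) (v j) y → x = y) (i : ℕ) :
    ∃ D : ℕ, D ≤ 8 * 2 ^ i ∧
      2 ^ (2 * i) * ((P ×ˢ Λ).filter (fun z => On (b z.2) (v z.2) z.1)).card ≤
        2 ^ (2 * i) * (Λ.card * (2 * D + 1) + P.card + D ^ 2) + P.card ^ 2 := by
  obtain ⟨f, hf0, hfD, hfσ⟩ := hPt i P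
  set D := ∑ j, (f j).totalDegree with hD
  have hD8 : D ≤ 8 * 2 ^ i := by
    refine hfD.trans (le_of_eq ?_)
    norm_num
  refine ⟨D, hD8, ?_⟩
  have hK : ∀ (Q : Finset (Fin 2 → ℝ)) (Λ' : Finset ι), Λ' ⊆ Λ →
      ∀ x ∈ Q, ∀ x' ∈ Q, x ≠ x' → ∀ y ∈ Λ', ∀ y' ∈ Λ', On (b y) (v y) x → On (b y) (v y) x' →
      On (b y') (v y') x → On (b y') (v y') x' → y = y' := by
    intro Q Λ' hΛ x _ x' _ hxx y hy y' hy' h1 h2 h3 h4
    by_contra hyy
    exact hxx (hd y (hΛ hy) y' (hΛ hy') hyy x x' h1 h3 h2 h4)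
  -- split of the points
  set P1 := P.filter (fun x => ∀ j, MvPolynomial.eval x (f j) ≠ 0) with hP1
  set P0 := P.filter (fun x => ¬ ∀ j, MvPolynomial.eval x (f j) ≠ 0) with hP0
  have hsplit : ((P ×ˢ Λ).filter (fun z => On (b z.2) (v z.2) z.1)).card =
      ((P1 ×ˢ Λ).filter (fun z => On (b z.2) (v z.2) z.1)).card +
      ((P0 ×ˢ Λ).filter (fun z => On (b z.2) (v z.2) z.1)).card := by
    rw [← Finset.card_filter_add_card_filter_not
      (s := (P ×ˢ Λ).filter (fun z => On (b z.2) (v z.2) z.1))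
      (fun z => ∀ j, MvPolynomial.eval z.1 (f j) ≠ 0)]
    congr 2
    · ext z
      simp only [hP1, Finset.mem_filter, Finset.mem_product]
      tauto
    · ext z
      simp only [hP0, Finset.mem_filter, Finset.mem_product]
      tauto
  -- the cells
  let cell : (Fin (2 * i) → Bool) → Finset (Fin 2 → ℝ) := fun σ =>
    P.filter (fun x => (∀ j, MvPolynomial.eval x (f j) ≠ 0) ∧ sgnp f x = σ)
  let Λc : (Fin (2 * i) → Bool) → Finset ι := fun σ =>
    Λ.filter (fun l => ∃ x ∈ cell σ, On (b l) (v l) x)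
  have hI1 : ((P1 ×ˢ Λ).filter (fun z => On (b z.2) (v z.2) z.1)).card =
      ∑ σ, ((cell σ ×ˢ Λ).filter (fun z => On (b z.2) (v z.2) z.1)).card := by
    rw [Finset.card_eq_sum_card_fiberwise (f := fun z : (Fin 2 → ℝ) × ι => sgnp f z.1)
      (t := Finset.univ) (fun z _ => Finset.mem_coe.2 (Finset.mem_univ _))]
    refine Finset.sum_congr rfl fun σ _ => ?_
    congr 1
    ext z
    simp only [cell, hP1, Finset.mem_filter, Finset.mem_product]
    tauto
  have hcell : ∀ σ, ((cell σ ×ˢ Λ).filter (fun z => On (b z.2) (v z.2) z.1)).card ≤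
      (Λc σ).card + (cell σ).card ^ 2 := by
    intro σ
    refine le_trans (Finset.card_le_card ?_)
      (k22 (cell σ) (Λc σ) (fun x l => On (b l) (v l) x) (hK _ _ (Finset.filter_subset _ _)))
    intro z hz
    rw [Finset.mem_filter, Finset.mem_product] at hz
    rw [Finset.mem_filter, Finset.mem_product]
    refine ⟨⟨hz.1.1, ?_⟩, hz.2⟩
    simp only [Λc]
    rw [Finset.mem_filter]
    exact ⟨hz.1.2, z.1, hz.1.1, hz.2⟩
  have hΛc : ∑ σ, (Λc σ).card ≤ Λ.card * (D + 1) := by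
    have h1 : ∑ σ, (Λc σ).card = ∑ l ∈ Λ,
        (Finset.univ.filter (fun σ => ∃ x ∈ cell σ, On (b l) (v l) x)).card := by
      simp only [Λc, Finset.card_filter]
      rw [Finset.sum_comm]
    rw [h1]
    calc ∑ l ∈ Λ, (Finset.univ.filter (fun σ => ∃ x ∈ cell σ, On (b l) (v l) x)).card
        ≤ ∑ _l ∈ Λ, (D + 1) := by
          refine Finset.sum_le_sum fun l hl => ?_
          have h2 := (hCr (b l) (v l) (2 * i) f (P1.filter (fun x => On (b l) (v l) x)) (hv l hl)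
            (fun r hr => (Finset.mem_filter.1 hr).2)).1 (fun r hr j => by
              have h3 := (Finset.mem_filter.1 hr).1
              exact (Finset.mem_filter.1 h3).2 j)
          refine le_trans (Finset.card_le_card ?_) h2
          intro σ hσ
          rw [Finset.mem_filter] at hσ
          obtain ⟨-, x, hx, hx2⟩ := hσ
          simp only [cell] at hx
          rw [Finset.mem_filter] at hx
          rw [Finset.mem_image]
          refine ⟨x, ?_, hx.2.2⟩
          rw [Finset.mem_filter, hP1, Finset.mem_filter]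
          exact ⟨⟨hx.1, hx.2.1⟩, hx2⟩
      _ = Λ.card * (D + 1) := by simp
  have hcsum : ∑ σ, (cell σ).card ≤ P.card := by
    have h1 : P1.card = ∑ σ, (cell σ).card := by
      rw [Finset.card_eq_sum_card_fiberwise (f := fun x : (Fin 2 → ℝ) => sgnp f x)
        (t := Finset.univ) (fun z _ => Finset.mem_coe.2 (Finset.mem_univ _))]
      refine Finset.sum_congr rfl fun σ _ => ?_
      congr 1
      ext z
      simp only [cell, hP1, Finset.mem_filter]
      tauto
    rw [← h1]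
    exact Finset.card_filter_le _ _
  have hcsq : 2 ^ (2 * i) * ∑ σ, (cell σ).card ^ 2 ≤ P.card ^ 2 := by
    calc 2 ^ (2 * i) * ∑ σ, (cell σ).card ^ 2 = ∑ σ, (2 ^ (2 * i) * (cell σ).card) * (cell σ).card := by
          rw [Finset.mul_sum]
          refine Finset.sum_congr rfl fun σ _ => ?_
          ring
      _ ≤ ∑ σ, P.card * (cell σ).card :=
          Finset.sum_le_sum fun σ _ => Nat.mul_le_mul_right _ (hfσ σ)
      _ = P.card * ∑ σ, (cell σ).card := by rw [Finset.mul_sum]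
      _ ≤ P.card * P.card := Nat.mul_le_mul_left _ hcsum
      _ = P.card ^ 2 := by ring
  have hA : 2 ^ (2 * i) * ((P1 ×ˢ Λ).filter (fun z => On (b z.2) (v z.2) z.1)).card ≤
      2 ^ (2 * i) * (Λ.card * (D + 1)) + P.card ^ 2 := by
    rw [hI1]
    calc 2 ^ (2 * i) * ∑ σ, ((cell σ ×ˢ Λ).filter (fun z => On (b z.2) (v z.2) z.1)).card
        ≤ 2 ^ (2 * i) * ∑ σ, ((Λc σ).card + (cell σ).card ^ 2) :=
          Nat.mul_le_mul_left _ (Finset.sum_le_sum fun σ _ => hcell σ)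
      _ = 2 ^ (2 * i) * ∑ σ, (Λc σ).card + 2 ^ (2 * i) * ∑ σ, (cell σ).card ^ 2 := by
          rw [Finset.sum_add_distrib, mul_add]
      _ ≤ 2 ^ (2 * i) * (Λ.card * (D + 1)) + P.card ^ 2 :=
          add_le_add (Nat.mul_le_mul_left _ hΛc) hcsq
  -- the zero set
  set Λg := Λ.filter (fun l => ∃ r, On (b l) (v l) r ∧ ∀ j, MvPolynomial.eval r (f j) ≠ 0) with hΛg
  set Λb := Λ.filter (fun l => ¬ ∃ r, On (b l) (v l) r ∧ ∀ j, MvPolynomial.eval r (f j) ≠ 0) with hΛb
  have hsplit0 : ((P0 ×ˢ Λ).filter (fun z => On (b z.2) (v z.2) z.1)).card =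
      ((P0 ×ˢ Λg).filter (fun z => On (b z.2) (v z.2) z.1)).card +
      ((P0 ×ˢ Λb).filter (fun z => On (b z.2) (v z.2) z.1)).card := by
    rw [← Finset.card_filter_add_card_filter_not
      (s := (P0 ×ˢ Λ).filter (fun z => On (b z.2) (v z.2) z.1))
      (fun z => ∃ r, On (b z.2) (v z.2) r ∧ ∀ j, MvPolynomial.eval r (f j) ≠ 0)]
    congr 2
    · ext z
      simp only [hΛg, Finset.mem_filter, Finset.mem_product]
      tauto
    · ext z
      simp only [hΛb, Finset.mem_filter, Finset.mem_product]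
      tauto
  have hgood : ((P0 ×ˢ Λg).filter (fun z => On (b z.2) (v z.2) z.1)).card ≤ Λ.card * D := by
    have h1 : ((P0 ×ˢ Λg).filter (fun z => On (b z.2) (v z.2) z.1)).card =
        ∑ l ∈ Λg, (P0.filter (fun x => On (b l) (v l) x)).card := by
      rw [Finset.card_filter, Finset.sum_product_right]
      refine Finset.sum_congr rfl fun y _ => ?_
      rw [Finset.card_filter]
    rw [h1]
    calc ∑ l ∈ Λg, (P0.filter (fun x => On (b l) (v l) x)).card ≤ ∑ _l ∈ Λg, D := by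
          refine Finset.sum_le_sum fun l hl => ?_
          rw [hΛg, Finset.mem_filter] at hl
          refine (hCr (b l) (v l) (2 * i) f (P0.filter (fun x => On (b l) (v l) x)) (hv l hl.1)
            (fun r hr => (Finset.mem_filter.1 hr).2)).2 hl.2 (fun r hr => ?_)
          have h3 := (Finset.mem_filter.1 hr).1
          have h4 := (Finset.mem_filter.1 h3).2
          push Not at h4
          exact h4
      _ = Λg.card * D := by simp
      _ ≤ Λ.card * D := Nat.mul_le_mul_right _ (Finset.card_filter_le _ _)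
  have hbadcard : Λb.card ≤ D := by
    have hF : (∏ j, f j) ≠ 0 := Finset.prod_ne_zero_iff.2 fun j _ => hf0 j
    have h1 := hHy (∏ j, f j) ι Λb (fun l => perp (v l)) (fun l => perp (v l) ⬝ᵥ b l) hF
      (fun l hl => perp_ne (hv l (Finset.mem_filter.1 hl).1))
      (fun l hl x hx => by
        have hl2 := Finset.mem_filter.1 hl
        have hon : On (b l) (v l) x := (on_iff (hv l hl2.1)).2 hx
        have h2 := hl2.2
        push Not at h2
        obtain ⟨j, hj⟩ := h2 x hon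
        rw [map_prod]
        exact Finset.prod_eq_zero (Finset.mem_univ j) hj)
      (fun l hl l' hl' hne => by
        have hl2 := Finset.mem_filter.1 hl
        have hl2' := Finset.mem_filter.1 hl'
        by_contra hcon
        push Not at hcon
        have g1 : On (b l) (v l) (b l) := ⟨0, by simp⟩
        have g2 : On (b l) (v l) (b l + v l) := ⟨1, by simp⟩
        have g3 := (on_iff (hv l' hl2'.1)).2 (hcon _ ((on_iff (hv l hl2.1)).1 g1))
        have g4 := (on_iff (hv l' hl2'.1)).2 (hcon _ ((on_iff (hv l hl2.1)).1 g2))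
        have g5 := hd l hl2.1 l' hl2'.1 hne _ _ g1 g3 g2 g4
        apply hv l hl2.1
        have g6 : b l + 0 = b l + v l := by rw [add_zero]; exact g5
        exact (add_left_cancel g6).symm)
    exact h1.trans (MvPolynomial.totalDegree_finset_prod _ _)
  have hbad : ((P0 ×ˢ Λb).filter (fun z => On (b z.2) (v z.2) z.1)).card ≤ P.card + D ^ 2 := by
    refine (k22' P0 Λb (fun x l => On (b l) (v l) x) (hK _ _ (Finset.filter_subset _ _))).trans ?_
    exact add_le_add (Finset.card_filter_le _ _) (Nat.pow_le_pow_left hbadcard 2)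
  have hB : ((P0 ×ˢ Λ).filter (fun z => On (b z.2) (v z.2) z.1)).card ≤
      Λ.card * D + (P.card + D ^ 2) := by
    rw [hsplit0]; exact add_le_add hgood hbad
  rw [hsplit, mul_add]
  have hB' := Nat.mul_le_mul_left (2 ^ (2 * i)) hB
  calc _ ≤ 2 ^ (2 * i) * (Λ.card * (D + 1)) + P.card ^ 2 +
        2 ^ (2 * i) * (Λ.card * D + (P.card + D ^ 2)) := add_le_add hA hB'
    _ = 2 ^ (2 * i) * (Λ.card * (2 * D + 1) + P.card + D ^ 2) + P.card ^ 2 := by ring

theorem final (a c I D : ℝ) (i : ℕ) (ha : 0 < a) (hc : 0 < c) (h1 : a ≤ c ^ 2) (h2 : c ≤ a ^ 2)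
    (hi : (2 : ℝ) ^ i ≤ a ^ 2 / c) (hi' : a ^ 2 / c < 2 ^ (i + 1)) (hD0 : 0 ≤ D)
    (hD : D ≤ 8 * 2 ^ i)
    (hI : 2 ^ (2 * i) * I ≤ 2 ^ (2 * i) * (c ^ 3 * (2 * D + 1) + a ^ 3 + D ^ 2) + (a ^ 3) ^ 2) :
    I ≤ 85 * (a ^ 2 * c ^ 2 + a ^ 3 + c ^ 3) := by
  set y : ℝ := 2 ^ i with hy
  have hy1 : 1 ≤ y := one_le_pow₀ (by norm_num)
  have hy0 : 0 < y := by linarith
  have hyy : (2 : ℝ) ^ (2 * i) = y ^ 2 := by rw [hy, ← pow_mul, mul_comm]
  have hy2 : (2 : ℝ) ^ (i + 1) = 2 * y := by rw [hy, pow_succ]; ring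
  rw [hyy] at hI
  rw [hy2] at hi'
  have e1 : y * c ≤ a ^ 2 := (le_div_iff₀ hc).1 hi
  have e2 : a ^ 2 < 2 * y * c := (div_lt_iff₀ hc).1 hi'
  -- a^6 <= 4 y^2 c^2 a^2
  have e3 : (a ^ 3) ^ 2 ≤ y ^ 2 * (4 * (a ^ 2 * c ^ 2)) := by
    have h4 : a ^ 2 * a ^ 2 ≤ (2 * y * c) * (2 * y * c) := by
      refine mul_le_mul e2.le e2.le (by positivity) (by positivity)
    have h5 := mul_le_mul_of_nonneg_left h4 (by positivity : 0 ≤ a ^ 2)
    nlinarith
  have e4 : c ^ 3 * (2 * D + 1) ≤ 17 * (a ^ 2 * c ^ 2) := by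
    have h4 : 2 * D + 1 ≤ 17 * y := by linarith
    have h5 : c ^ 3 * (2 * D + 1) ≤ c ^ 3 * (17 * y) := mul_le_mul_of_nonneg_left h4 (by positivity)
    have h6 : c ^ 2 * (y * c) ≤ c ^ 2 * a ^ 2 := mul_le_mul_of_nonneg_left e1 (by positivity)
    nlinarith
  have e5 : D ^ 2 ≤ 64 * (a ^ 2 * c ^ 2) := by
    have h4 : D ^ 2 ≤ (8 * y) ^ 2 := pow_le_pow_left₀ hD0 hD 2
    have h5 : (y * c) ^ 2 ≤ (a ^ 2) ^ 2 := pow_le_pow_left₀ (by positivity) e1 2
    have h6 : a ^ 2 ≤ (c ^ 2) ^ 2 := pow_le_pow_left₀ ha.le h1 2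
    have h7 : y ^ 2 * c ^ 2 ≤ (a ^ 2 * c ^ 2) * c ^ 2 := by
      calc y ^ 2 * c ^ 2 = (y * c) ^ 2 := by ring
        _ ≤ (a ^ 2) ^ 2 := h5
        _ = a ^ 2 * a ^ 2 := by ring
        _ ≤ a ^ 2 * (c ^ 2) ^ 2 := mul_le_mul_of_nonneg_left h6 (by positivity)
        _ = (a ^ 2 * c ^ 2) * c ^ 2 := by ring
    have h8 : y ^ 2 ≤ a ^ 2 * c ^ 2 := le_of_mul_le_mul_right h7 (by positivity)
    nlinarith
  have e6 : y ^ 2 * I ≤ y ^ 2 * (85 * (a ^ 2 * c ^ 2) + a ^ 3) := by
    have h9 : y ^ 2 * (c ^ 3 * (2 * D + 1) + a ^ 3 + D ^ 2) ≤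
        y ^ 2 * (17 * (a ^ 2 * c ^ 2) + a ^ 3 + 64 * (a ^ 2 * c ^ 2)) :=
      mul_le_mul_of_nonneg_left (by linarith) (by positivity)
    nlinarith
  have e7 : I ≤ 85 * (a ^ 2 * c ^ 2) + a ^ 3 := le_of_mul_le_mul_left e6 (by positivity)
  have e8 : 0 ≤ a ^ 3 := by positivity
  have e9 : 0 ≤ c ^ 3 := by positivity
  linarith

end B2

theorem st_B2 (hPt : Part_stmt 2) (hCr : CrossLine_stmt 2) (hHy : HypCount_stmt 2) :
    ST_stmt 2 := by
  refine ⟨85, by norm_num, ?_⟩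
  intro ι P Λ b v hv hd
  set I := ((P ×ˢ Λ).filter (fun z => On (b z.2) (v z.2) z.1)).card with hI
  have hK : ∀ x ∈ P, ∀ x' ∈ P, x ≠ x' → ∀ y ∈ Λ, ∀ y' ∈ Λ, On (b y) (v y) x → On (b y) (v y) x' →
      On (b y') (v y') x → On (b y') (v y') x' → y = y' := by
    intro x _ x' _ hxx y hy y' hy' h1 h2 h3 h4
    by_contra hyy
    exact hxx (hd y hy y' hy' hyy x x' h1 h3 h2 h4)
  have t1 : I ≤ Λ.card + P.card ^ 2 := B2.k22 P Λ (fun x l => On (b l) (v l) x) hK
  have t2 : I ≤ P.card + Λ.card ^ 2 := B2.k22' P Λ (fun x l => On (b l) (v l) x) hK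
  have hpos : 0 ≤ (P.card : ℝ) ^ (2 / 3 : ℝ) * (Λ.card : ℝ) ^ (2 / 3 : ℝ) := by positivity
  by_cases c1 : Λ.card ^ 2 < P.card
  · have h1 : I ≤ 2 * P.card := by omega
    have h2 : (I : ℝ) ≤ 2 * P.card := by exact_mod_cast h1
    have h3 : (0 : ℝ) ≤ P.card := by positivity
    have h4 : (0 : ℝ) ≤ Λ.card := by positivity
    linarith
  by_cases c2 : P.card ^ 2 < Λ.card
  · have h1 : I ≤ 2 * Λ.card := by omega
    have h2 : (I : ℝ) ≤ 2 * Λ.card := by exact_mod_cast h1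
    have h3 : (0 : ℝ) ≤ P.card := by positivity
    have h4 : (0 : ℝ) ≤ Λ.card := by positivity
    linarith
  push Not at c1 c2
  by_cases c3 : P.card = 0
  · have h0 : Λ.card = 0 := by rw [c3] at c2; simpa using c2
    have h1 : I = 0 := by rw [c3, h0] at t1; simpa using t1
    rw [h1, c3, h0]; norm_num
  by_cases c4 : Λ.card = 0
  · have h0 : P.card = 0 := by rw [c4] at c1; simpa using c1
    exact absurd h0 c3
  have hn : (0 : ℝ) < P.card := by exact_mod_cast Nat.pos_of_ne_zero c3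
  have hm : (0 : ℝ) < Λ.card := by exact_mod_cast Nat.pos_of_ne_zero c4
  set a : ℝ := (P.card : ℝ) ^ (1 / 3 : ℝ) with ha
  set c : ℝ := (Λ.card : ℝ) ^ (1 / 3 : ℝ) with hc
  have a0 : 0 < a := Real.rpow_pos_of_pos hn _
  have c0 : 0 < c := Real.rpow_pos_of_pos hm _
  have a3 : a ^ 3 = P.card := by
    rw [ha, ← Real.rpow_natCast, ← Real.rpow_mul hn.le]; norm_num
  have c3' : c ^ 3 = Λ.card := by
    rw [hc, ← Real.rpow_natCast, ← Real.rpow_mul hm.le]; norm_num
  have a2 : (P.card : ℝ) ^ (2 / 3 : ℝ) = a ^ 2 := by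
    rw [ha, ← Real.rpow_natCast, ← Real.rpow_mul hn.le]; norm_num
  have c2' : (Λ.card : ℝ) ^ (2 / 3 : ℝ) = c ^ 2 := by
    rw [hc, ← Real.rpow_natCast, ← Real.rpow_mul hm.le]; norm_num
  have h1 : a ≤ c ^ 2 := by
    have : a ^ 3 ≤ (c ^ 2) ^ 3 := by
      rw [a3, ← pow_mul, show 2 * 3 = 3 * 2 by norm_num, pow_mul, c3']
      exact_mod_cast c1
    exact le_of_pow_le_pow_left₀ (by norm_num) (by positivity) this
  have h2 : c ≤ a ^ 2 := by
    have : c ^ 3 ≤ (a ^ 2) ^ 3 := by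
      rw [c3', ← pow_mul, show 2 * 3 = 3 * 2 by norm_num, pow_mul, a3]
      exact_mod_cast c2
    exact le_of_pow_le_pow_left₀ (by norm_num) (by positivity) this
  have h3 : 1 ≤ a ^ 2 / c := by rw [le_div_iff₀ c0, one_mul]; exact h2
  obtain ⟨i, hi, hi'⟩ := exists_nat_pow_near h3 (by norm_num : (1 : ℝ) < 2)
  obtain ⟨D, hD, hDI⟩ := B2.bound hPt hCr hHy ι P Λ b v hv hd i
  have hDI' : (2 : ℝ) ^ (2 * i) * I ≤ 2 ^ (2 * i) * (c ^ 3 * (2 * D + 1) + a ^ 3 + D ^ 2) +
      (a ^ 3) ^ 2 := by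
    rw [a3, c3']
    exact_mod_cast hDI
  have := B2.final a c I D i a0 c0 h1 h2 hi hi' (by positivity) (by exact_mod_cast hD) hDI'
  rw [a2, c2', ← a3, ← c3']
  exact this

end Pool.Agent.Helper98.Sim
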