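import Pool.Agent.Helper98.Sim.Defs

/-! B3: the Szemeredi-Trotter theorem in space by a generic projection. -/

set_option autoImplicit false

open scoped Classical BigOperators
open Finset

namespace Pool.Agent.Helper98.Sim

namespace B3

/-- projection along `(1, s, s^2)` -/
def pr (s : ℝ) (x : Fin 3 → ℝ) : Fin 2 → ℝ := ![x 1 - s * x 0, x 2 - s ^ 2 * x 0]

theorem pr_add (s : ℝ) (x : Fin 3 → ℝ) (t : ℝ) (v : Fin 3 → ℝ) :
    pr s (x + t • v) = pr s x + t • pr s v := by
  funext k
  fin_cases k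
  · simp [pr]; ring
  · simp [pr]; ring

theorem pr_sub (s : ℝ) (x y : Fin 3 → ℝ) : pr s (x - y) = pr s x - pr s y := by
  funext k
  fin_cases k
  · simp [pr]; ring
  · simp [pr]; ring

theorem pr_zero (s : ℝ) : pr s 0 = 0 := by
  funext k
  fin_cases k <;> simp [pr]

theorem pr_ne (z : Fin 3 → ℝ) (hz : z ≠ 0) : ∀ᶠ s in Filter.cofinite, pr s z ≠ 0 := by
  rw [Filter.eventually_cofinite]
  refine Set.Finite.subset (Set.finite_singleton (z 1 / z 0)) ?_
  intro s hs
  simp only [Set.mem_setOf_eq, not_not] at hs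
  have h1 := congrFun hs 0
  have h2 := congrFun hs 1
  simp [pr] at h1 h2
  rw [Set.mem_singleton_iff]
  by_cases h0 : z 0 = 0
  · exfalso
    apply hz
    rw [h0] at h1 h2
    funext k
    fin_cases k
    · exact h0
    · simpa using h1
    · simpa using h2
  · rw [eq_div_iff h0]; linarith

theorem dot_ne (a b c : ℝ) (h : ¬ (a = 0 ∧ b = 0 ∧ c = 0)) :
    ∀ᶠ s in Filter.cofinite, a + b * s + c * s ^ 2 ≠ 0 := by
  rw [Filter.eventually_cofinite]
  let p : Polynomial ℝ := Polynomial.C a + Polynomial.C b * Polynomial.X +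
    Polynomial.C c * Polynomial.X ^ 2
  have hp : p ≠ 0 := by
    intro h0
    apply h
    have c0 : p.coeff 0 = 0 := by rw [h0]; simp
    have c1 : p.coeff 1 = 0 := by rw [h0]; simp
    have c2 : p.coeff 2 = 0 := by rw [h0]; simp
    refine ⟨?_, ?_, ?_⟩
    · simpa [p, Polynomial.coeff_X, Polynomial.coeff_C, Polynomial.coeff_X_pow] using c0
    · simpa [p, Polynomial.coeff_X, Polynomial.coeff_C, Polynomial.coeff_X_pow] using c1
    · simpa [p, Polynomial.coeff_X, Polynomial.coeff_C, Polynomial.coeff_X_pow] using c2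
  refine Set.Finite.subset (p.roots.toFinset.finite_toSet) ?_
  intro s hs
  simp only [Set.mem_setOf_eq, not_not] at hs
  rw [Finset.mem_coe, Multiset.mem_toFinset, Polynomial.mem_roots hp, Polynomial.IsRoot.def]
  simp only [p, Polynomial.eval_add, Polynomial.eval_mul, Polynomial.eval_C, Polynomial.eval_X,
    Polynomial.eval_pow]
  exact hs

/-- two lines with two common points are equal -/
theorem on_trans {d : ℕ} {b v b' v' x y z : Fin d → ℝ} (hxy : x ≠ y) (h1 : On b v x)
    (h2 : On b v y) (h3 : On b' v' x) (h4 : On b' v' y) (h5 : On b v z) : On b' v' z := by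
  obtain ⟨t, ht⟩ := h1
  obtain ⟨t', ht'⟩ := h2
  obtain ⟨r, hr⟩ := h3
  obtain ⟨r', hr'⟩ := h4
  obtain ⟨u, hu⟩ := h5
  have htt : t' - t ≠ 0 := by
    intro h
    apply hxy
    rw [ht, ht', sub_eq_zero.1 h]
  have hv : v = ((r' - r) / (t' - t)) • v' := by
    have e1 : (t' - t) • v = (r' - r) • v' := by
      have : y - x = y - x := rfl
      nth_rewrite 1 [ht', ht] at this
      rw [hr', hr] at this
      have e2 : b + t' • v - (b + t • v) = (t' - t) • v := by rw [sub_smul]; abel
      have e3 : b' + r' • v' - (b' + r • v') = (r' - r) • v' := by rw [sub_smul]; abel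
      rw [← e2, ← e3]; exact this
    rw [div_eq_inv_mul, mul_smul, ← e1, smul_smul, inv_mul_cancel₀ htt, one_smul]
  refine ⟨r + (u - t) * ((r' - r) / (t' - t)), ?_⟩
  have e4 : z = x + (u - t) • v := by rw [hu, ht, sub_smul]; abel
  rw [e4]
  nth_rewrite 1 [hv]
  rw [hr, smul_smul, add_smul]
  abel

theorem off_line {b v x : Fin 3 → ℝ} (hv : v ≠ 0) (hx : ¬ On b v x) :
    ∀ᶠ s in Filter.cofinite, ¬ On (pr s b) (pr s v) (pr s x) := by
  set w := x - b with hw
  -- cross product of `w` and `v`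
  have hn : ¬ (w 1 * v 2 - w 2 * v 1 = 0 ∧ w 2 * v 0 - w 0 * v 2 = 0 ∧
      w 0 * v 1 - w 1 * v 0 = 0) := by
    rintro ⟨n0, n1, n2⟩
    apply hx
    have hex : ∃ k, v k ≠ 0 := by
      by_contra hc
      push Not at hc
      exact hv (funext hc)
    obtain ⟨k, hk⟩ := hex
    have hww : ∀ j, w j = (w k / v k) * v j := by
      intro j
      rw [div_mul_eq_mul_div, eq_div_iff hk]
      fin_cases k <;> fin_cases j <;> simp <;> linarith
    refine ⟨w k / v k, ?_⟩
    funext j
    have h1 := hww j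
    have h2 : w j = x j - b j := by rw [hw]; rfl
    simp only [Pi.add_apply, Pi.smul_apply, smul_eq_mul]
    rw [← h1, h2]
    ring
  filter_upwards [dot_ne _ _ _ hn] with s hs hon
  apply hs
  obtain ⟨t, ht⟩ := hon
  have h1 : pr s (w - t • v) = 0 := by
    have e1 : w - t • v = x - (b + t • v) := by rw [hw]; abel
    rw [e1, pr_sub, pr_add, ← ht, sub_self]
  have h2 := congrFun h1 0
  have h3 := congrFun h1 1
  simp [pr] at h2 h3
  have g1 : w 1 = t * v 1 + s * (w 0 - t * v 0) := by linarith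
  have g2 : w 2 = t * v 2 + s ^ 2 * (w 0 - t * v 0) := by linarith
  rw [g1, g2]
  ring

end B3

theorem st_B3 (h2 : ST_stmt 2) : ST_stmt 3 := by
  obtain ⟨C, hC, h⟩ := h2
  refine ⟨C, hC, ?_⟩
  intro ι P Λ b v hv hd
  have e1 : ∀ᶠ s in Filter.cofinite, ∀ x ∈ P, ∀ y ∈ P, x ≠ y → B3.pr s x ≠ B3.pr s y := by
    rw [Filter.eventually_all_finset]
    intro x _
    rw [Filter.eventually_all_finset]
    intro y _
    by_cases hxy : x = y
    · exact Filter.Eventually.of_forall fun s h => absurd hxy h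
    · filter_upwards [B3.pr_ne (x - y) (sub_ne_zero.2 hxy)] with s hs _ heq
      apply hs
      rw [B3.pr_sub, heq, sub_self]
  have e2 : ∀ᶠ s in Filter.cofinite, ∀ i ∈ Λ, B3.pr s (v i) ≠ 0 := by
    rw [Filter.eventually_all_finset]
    intro i hi
    exact B3.pr_ne _ (hv i hi)
  have e3 : ∀ᶠ s in Filter.cofinite, ∀ i ∈ Λ, ∀ j ∈ Λ, i ≠ j →
      ∃ x, On (b i) (v i) x ∧ ¬ On (B3.pr s (b j)) (B3.pr s (v j)) (B3.pr s x) := by
    rw [Filter.eventually_all_finset]
    intro i hi
    rw [Filter.eventually_all_finset]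
    intro j hj
    by_cases hij : i = j
    · exact Filter.Eventually.of_forall fun s h => absurd hij h
    · have hex : ∃ x, On (b i) (v i) x ∧ ¬ On (b j) (v j) x := by
        by_contra hc
        push Not at hc
        have g1 : On (b i) (v i) (b i) := ⟨0, by simp⟩
        have g2 : On (b i) (v i) (b i + v i) := ⟨1, by simp⟩
        have g5 := hd i hi j hj hij _ _ g1 (hc _ g1) g2 (hc _ g2)
        apply hv i hi
        have g6 : b i + 0 = b i + v i := by rw [add_zero]; exact g5
        exact (add_left_cancel g6).symm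
      obtain ⟨x, hx1, hx2⟩ := hex
      filter_upwards [B3.off_line (hv j hj) hx2] with s hs _
      exact ⟨x, hx1, hs⟩
  obtain ⟨s, s1, s2, s3⟩ := (e1.and (e2.and e3)).exists
  have hinj : Set.InjOn (B3.pr s) P := by
    intro x hx y hy hxy
    by_contra hne
    exact s1 x hx y hy hne hxy
  have hpr : ∀ i x, On (b i) (v i) x → On (B3.pr s (b i)) (B3.pr s (v i)) (B3.pr s x) := by
    rintro i x ⟨t, rfl⟩
    exact ⟨t, B3.pr_add s _ _ _⟩
  have h3 := h ι (P.image (B3.pr s)) Λ (fun i => B3.pr s (b i)) (fun i => B3.pr s (v i)) s2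
    (by
      intro i hi j hj hij x y h1 h2 h3 h4
      by_contra hxy
      obtain ⟨z, hz1, hz2⟩ := s3 i hi j hj hij
      exact hz2 (B3.on_trans hxy h1 h3 h2 h4 (hpr i z hz1)))
  rw [Finset.card_image_of_injOn hinj] at h3
  refine le_trans ?_ h3
  norm_cast
  refine Finset.card_le_card_of_injOn (fun z => (B3.pr s z.1, z.2)) ?_ ?_
  · intro z hz
    rw [Finset.mem_coe, Finset.mem_filter, Finset.mem_product] at hz ⊢
    exact ⟨⟨Finset.mem_image_of_mem _ hz.1.1, hz.1.2⟩, hpr z.2 z.1 hz.2⟩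
  · intro z hz z' hz' hzz
    rw [Finset.mem_coe, Finset.mem_filter, Finset.mem_product] at hz hz'
    rw [Prod.mk.injEq] at hzz
    exact Prod.ext (hinj hz.1.1 hz'.1.1 hzz.1) hzz.2

end Pool.Agent.Helper98.Sim
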